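import Mathlib
import Pool.Agent.Helper903.ES.Main

/-!
# Ramsey numbers of trees with an odd number of vertices (Burr–Erdős)

We prove `R(T) ≤ 2 n - 3` for every odd `n ≥ 3` and every tree `T` on `n` vertices, and that the star
attains this value.  The proof: a colouring of `K_N`, `N = k (n - 2) + 1`, with `k` colours and no
monochromatic `T` has in each colour at most `(n - 2) N / 2` edges, by the kernel-checked
Erdős–Sós theorem of the library file `Pool.Agent.Helper903.ES.Main`.  The sum of these bounds is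
exactly the number `k (n - 2) N / 2` of all edges; but for `n` odd and `k` even `(n - 2) N` is odd,
so that the bound is attained in no colour.
-/

set_option autoImplicit false

namespace Pool.Agent.Results.MP_06e9af_co.OddTreeRamsey

/-- Every colouring `c` of the edges of the complete graph on `N` vertices with `k` colours
contains a copy of `H` all of whose edges have the same colour: there are a colour `i` and an
injective map `f` from the vertices of `H` to the `N` vertices such that every edge of `H` is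
mapped to an edge of colour `i`. -/
def Arrows {W : Type} (H : SimpleGraph W) (k N : ℕ) : Prop :=
  ∀ c : Sym2 (Fin N) → Fin k, ∃ i : Fin k, ∃ f : W ↪ Fin N,
    ∀ a b : W, H.Adj a b → c s(f a, f b) = i

/-- The Ramsey number `R(H)`: the least `N` such that every colouring of the edges of `K_N` with
two colours contains a monochromatic copy of `H`. -/
noncomputable def ramsey {W : Type} (H : SimpleGraph W) : ℕ :=
  sInf {N | Arrows H 2 N}

/-- one colour class -/
def cls {k N : ℕ} (c : Sym2 (Fin N) → Fin k) (i : Fin k) : SimpleGraph (Fin N) where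
  Adj x y := x ≠ y ∧ c s(x, y) = i
  symm := ⟨fun x y h => ⟨h.1.symm, by rw [Sym2.eq_swap]; exact h.2⟩⟩
  loopless := ⟨fun x h => h.1 rfl⟩

open Classical in
theorem sum_cls {k N : ℕ} (c : Sym2 (Fin N) → Fin k) :
    ∑ i : Fin k, 2 * (cls c i).edgeFinset.card = N * (N - 1) := by
  have h1 : ∀ i : Fin k, (cls c i).edgeFinset =
      (⊤ : SimpleGraph (Fin N)).edgeFinset.filter (fun e => c e = i) := by
    intro i
    ext e
    induction e with
    | _ x y =>
      rw [SimpleGraph.mem_edgeFinset, SimpleGraph.mem_edgeSet, Finset.mem_filter,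
        SimpleGraph.mem_edgeFinset, SimpleGraph.mem_edgeSet, SimpleGraph.top_adj]
      rfl
  have h2 := Finset.card_eq_sum_card_fiberwise (s := (⊤ : SimpleGraph (Fin N)).edgeFinset)
    (t := (Finset.univ : Finset (Fin k))) (f := c) (fun _ _ => by simp)
  have h3 : (⊤ : SimpleGraph (Fin N)).edgeFinset.card = N * (N - 1) / 2 := by
    have := SimpleGraph.card_edgeFinset_top_eq_card_choose_two (V := Fin N)
    rw [Fintype.card_fin, Nat.choose_two_right] at this
    convert this
  have h4 : 2 * (N * (N - 1) / 2) = N * (N - 1) :=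
    Nat.two_mul_div_two_of_even (Nat.even_mul_pred_self N)
  rw [← Finset.mul_sum, ← h4, ← h3, h2]
  congr 1
  exact Finset.sum_congr rfl fun i _ => by rw [h1]

open Classical in
/-- the colouring of `K_N` contains a monochromatic `T` if some colour has many edges -/
theorem of_many {k n N : ℕ} (hn : 2 ≤ n) (T : SimpleGraph (Fin n)) (hT : T.IsTree)
    (c : Sym2 (Fin N) → Fin k)
    (h : ∃ i : Fin k, (n - 2) * N < 2 * (cls c i).edgeFinset.card) :
    ∃ i : Fin k, ∃ f : Fin n ↪ Fin N, ∀ a b, T.Adj a b → c s(f a, f b) = i := by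
  obtain ⟨i, hi⟩ := h
  obtain ⟨f, hf⟩ := ES903.erdos_sos (cls c i) (n - 1)
    (by rw [Fintype.card_fin, show n - 1 - 1 = n - 2 by omega]; exact hi) T hT
    (by rw [Fintype.card_fin]; omega)
  exact ⟨i, f, fun a b hab => (hf a b hab).2⟩

/-- `n` odd, `k` even: `N = k (n - 2) + 1` vertices are enough. -/
theorem arrows_eq {k n : ℕ} (hk : Even k) (hn : 3 ≤ n) (ho : Odd n)
    (T : SimpleGraph (Fin n)) (hT : T.IsTree) : Arrows T k (k * (n - 2) + 1) ∨ k = 0 := by
  classical
  rcases Nat.eq_zero_or_pos k with h0 | hkpos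
  · exact Or.inr h0
  left
  obtain ⟨N, hN⟩ : ∃ N, N = k * (n - 2) + 1 := ⟨_, rfl⟩
  rw [← hN]
  intro c
  refine of_many (by omega) T hT c ?_
  by_contra hcon
  push Not at hcon
  have hodd : Odd ((n - 2) * N) := by
    refine Nat.odd_mul.2 ⟨?_, ?_⟩
    · obtain ⟨m, hm⟩ := ho
      exact ⟨m - 1, by omega⟩
    · rw [hN]; exact (hk.mul_right _).add_one
  have hlt : ∀ i : Fin k, 2 * (cls c i).edgeFinset.card + 1 ≤ (n - 2) * N := by
    intro i
    have h1 := hcon i
    obtain ⟨m, hm⟩ := hodd
    omega
  have hs := sum_cls c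
  have h2 : ∑ i : Fin k, (2 * (cls c i).edgeFinset.card + 1) ≤ ∑ _i : Fin k, (n - 2) * N :=
    Finset.sum_le_sum fun i _ => hlt i
  rw [Finset.sum_add_distrib, Finset.sum_const, Finset.sum_const, Finset.card_univ,
    Fintype.card_fin, smul_eq_mul, smul_eq_mul, mul_one] at h2
  rw [hs] at h2
  have h4 : N * (N - 1) = k * ((n - 2) * N) := by
    rw [hN, Nat.add_sub_cancel]; ring
  omega

theorem arrows_mono {W : Type} (H : SimpleGraph W) {k N M : ℕ} (h : N ≤ M)
    (hN : Arrows H k N) : Arrows H k M := by
  intro c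
  obtain ⟨i, f, hf⟩ := hN (fun e => c (e.map (Fin.castLE h)))
  refine ⟨i, f.trans (Fin.castLEEmb h), fun a b hab => ?_⟩
  have := hf a b hab
  simpa using this

/-- The star on `n` vertices (with centre `0`). -/
def star (n : ℕ) : SimpleGraph (Fin n) where
  Adj a b := a ≠ b ∧ (a.val = 0 ∨ b.val = 0)
  symm := ⟨fun _ _ h => ⟨h.1.symm, h.2.symm⟩⟩
  loopless := ⟨fun _ h => h.1 rfl⟩

theorem star_isTree {n : ℕ} (hn : 1 ≤ n) : (star n).IsTree := by
  classical
  have z : Fin n := ⟨0, by omega⟩
  have hz : ∀ a : Fin n, a.val = 0 ∨ (star n).Adj ⟨0, by omega⟩ a := by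
    intro a
    by_cases h : a.val = 0
    · exact Or.inl h
    · refine Or.inr ⟨fun he => h ?_, Or.inl rfl⟩
      rw [← he]
  have hne : Nonempty (Fin n) := ⟨⟨0, by omega⟩⟩
  have hc : (star n).Connected := by
    rw [SimpleGraph.connected_iff_exists_forall_reachable]
    refine ⟨⟨0, by omega⟩, fun a => ?_⟩
    rcases hz a with h | h
    · have : a = ⟨0, by omega⟩ := Fin.ext h
      rw [this]
    · exact h.reachable
  rw [SimpleGraph.isTree_iff_connected_and_card]
  refine ⟨hc, ?_⟩
  have h1 : Nat.card (star n).edgeSet = n - 1 := by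
    have e : (star n).edgeSet = (fun a : Fin n => s((⟨0, by omega⟩ : Fin n), a)) ''
        {a | a.val ≠ 0} := by
      ext x
      induction x with
      | _ a b =>
        simp only [SimpleGraph.mem_edgeSet, Set.mem_image, Set.mem_ofPred_eq]
        constructor
        · rintro ⟨hab, h | h⟩
          · refine ⟨b, fun hb => hab (Fin.ext (h.trans hb.symm)), ?_⟩
            have : a = ⟨0, by omega⟩ := Fin.ext h
            rw [this]
          · refine ⟨a, fun ha => hab (Fin.ext (ha.trans h.symm)), ?_⟩
            have : b = ⟨0, by omega⟩ := Fin.ext h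
            rw [this, Sym2.eq_swap]
        · rintro ⟨w, hw, hx⟩
          rw [Sym2.eq_iff] at hx
          rcases hx with ⟨h1, h2⟩ | ⟨h1, h2⟩
          · subst h2
            refine ⟨fun he => hw ?_, Or.inl ?_⟩
            · rw [← he, ← h1]
            · rw [← h1]
          · subst h2
            refine ⟨fun he => hw ?_, Or.inr ?_⟩
            · rw [he, ← h1]
            · rw [← h1]
    rw [Nat.card_coe_set_eq, e, Set.InjOn.ncard_image]
    · have : {a : Fin n | a.val ≠ 0} = {(⟨0, by omega⟩ : Fin n)}ᶜ := by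
        ext a
        simp [Fin.ext_iff]
      rw [this, Set.ncard_compl]
      simp
    · intro a ha b hb hab
      simp only [Sym2.eq_iff] at hab
      rcases hab with h | ⟨h1, h2⟩
      · exact h.2
      · exact absurd (by rw [← h1]) hb
  rw [h1]
  simp
  omega

/-- `K_{2 m}` has a colouring with two colours in which the degrees are `m` and `m - 1`. -/
theorem not_arrows_star {n : ℕ} (hn : 2 ≤ n) : ¬ Arrows (star n) 2 (2 * n - 4) := by
  classical
  intro h
  -- the colour of an edge: `0` if the parities of its ends differ, and `1` otherwise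
  let col : Sym2 (Fin (2 * n - 4)) → Fin 2 :=
    Sym2.lift ⟨fun a b => if a.val % 2 = b.val % 2 then 1 else 0, by
      intro a b
      by_cases hh : a.val % 2 = b.val % 2
      · simp [hh]
      · simp [hh, Ne.symm hh]⟩
  obtain ⟨i, f, hf⟩ := h col
  have hz : ∀ a : Fin n, a.val ≠ 0 → col s(f ⟨0, by omega⟩, f a) = i := by
    intro a ha
    refine hf _ _ ⟨fun he => ha ?_, Or.inl rfl⟩
    rw [← he]
  -- all the leaves are mapped to the same parity class, of size `n - 2`
  set v := f ⟨0, by omega⟩ with hv
  have hcount : ∀ r : ℕ, r < 2 →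
      (Finset.univ.filter (fun x : Fin (2 * n - 4) => x.val % 2 = r)).card ≤ n - 2 := by
    intro r hr
    have h1 : (Finset.univ.filter (fun x : Fin (2 * n - 4) => x.val % 2 = r)).card ≤
        (Finset.range (n - 2)).card := by
      apply Finset.card_le_card_of_injOn (fun x => x.val / 2)
      · intro x _
        have := x.isLt
        simp only [Finset.coe_range, Set.mem_Iio]
        omega
      · intro x hx y hy hxy
        simp only [Finset.coe_filter, Finset.mem_univ, true_and, Set.mem_ofPred_eq] at hx hy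
        simp only at hxy
        apply Fin.ext
        omega
    simpa using h1
  obtain ⟨r, hr2, hr⟩ : ∃ r, r < 2 ∧ ∀ a : Fin n, a.val ≠ 0 → (f a).val % 2 = r := by
    by_cases hi : i = 1
    · refine ⟨v.val % 2, Nat.mod_lt _ (by norm_num), fun a ha => ?_⟩
      have h1 := hz a ha
      rw [hi] at h1
      have h2 : (if v.val % 2 = (f a).val % 2 then (1 : Fin 2) else 0) = 1 := h1
      by_contra hne
      rw [if_neg (fun h => hne h.symm)] at h2
      exact absurd h2 (by decide)
    · refine ⟨(v.val + 1) % 2, Nat.mod_lt _ (by norm_num), fun a ha => ?_⟩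
      have h1 := hz a ha
      have h2 : (if v.val % 2 = (f a).val % 2 then (1 : Fin 2) else 0) = i := h1
      by_cases he : v.val % 2 = (f a).val % 2
      · rw [if_pos he] at h2
        exact absurd h2.symm hi
      · omega
  have h3 : ((Finset.univ.filter (fun a : Fin n => a.val ≠ 0))).card ≤
      (Finset.univ.filter (fun x : Fin (2 * n - 4) => x.val % 2 = r)).card := by
    apply Finset.card_le_card_of_injOn f
    · intro a ha
      simp only [Finset.coe_filter, Finset.mem_univ, true_and, Set.mem_ofPred_eq] at ha ⊢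
      exact hr a ha
    · exact f.injective.injOn
  have h4 : ((Finset.univ.filter (fun a : Fin n => a.val ≠ 0))).card = n - 1 := by
    have : Finset.univ.filter (fun a : Fin n => a.val ≠ 0) =
        Finset.univ.erase (⟨0, by omega⟩ : Fin n) := by
      ext a
      simp [Fin.ext_iff]
    rw [this, Finset.card_erase_of_mem (Finset.mem_univ _), Finset.card_univ, Fintype.card_fin]
  have h5 := hcount r hr2
  omega

/-- **Burr–Erdős for an odd number of vertices.**

(1) For every odd `n ≥ 3` and every tree `T` on `n` vertices `R(T) ≤ 2 n - 3`: every colouring of the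
edges of `K_N`, `N ≥ 2 n - 3`, with two colours contains a monochromatic `T`.

(2) For every odd `n ≥ 3` the maximum of `R(T)` over all trees `T` on `n` vertices is `2 n - 3`.

(3) More generally, for every even number `k ≥ 2` of colours, every odd `n ≥ 3` and every tree `T` on
`n` vertices, every colouring of the edges of `K_N`, `N ≥ k (n - 2) + 1`, with `k` colours contains
a monochromatic `T`. -/
theorem result :
    (∀ n : ℕ, 3 ≤ n → Odd n → ∀ T : SimpleGraph (Fin n), T.IsTree →
      (∀ N : ℕ, 2 * n - 3 ≤ N → Arrows T 2 N) ∧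
      Arrows T 2 (ramsey T) ∧ ramsey T ≤ 2 * n - 3) ∧
    (∀ n : ℕ, 3 ≤ n → Odd n →
      IsGreatest {N : ℕ | ∃ T : SimpleGraph (Fin n), T.IsTree ∧ ramsey T = N} (2 * n - 3)) ∧
    (∀ k n : ℕ, 2 ≤ k → Even k → 3 ≤ n → Odd n → ∀ T : SimpleGraph (Fin n), T.IsTree →
      ∀ N : ℕ, k * (n - 2) + 1 ≤ N → Arrows T k N) := by
  have h3 : ∀ k n : ℕ, 2 ≤ k → Even k → 3 ≤ n → Odd n → ∀ T : SimpleGraph (Fin n), T.IsTree →
      ∀ N : ℕ, k * (n - 2) + 1 ≤ N → Arrows T k N := by
    intro k n hk hke hn ho T hT N hN
    rcases arrows_eq hke hn ho T hT with h | h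
    · exact arrows_mono T hN h
    · omega
  have h1 : ∀ n : ℕ, 3 ≤ n → Odd n → ∀ T : SimpleGraph (Fin n), T.IsTree →
      (∀ N : ℕ, 2 * n - 3 ≤ N → Arrows T 2 N) ∧
      Arrows T 2 (ramsey T) ∧ ramsey T ≤ 2 * n - 3 := by
    intro n hn ho T hT
    have h : ∀ N : ℕ, 2 * n - 3 ≤ N → Arrows T 2 N := fun N hN =>
      h3 2 n le_rfl (by decide) hn ho T hT N (by omega)
    have hm : 2 * n - 3 ∈ {N | Arrows T 2 N} := h _ le_rfl
    exact ⟨h, Nat.sInf_mem ⟨_, hm⟩, Nat.sInf_le hm⟩
  refine ⟨h1, fun n hn ho => ⟨⟨star n, star_isTree (by omega), ?_⟩, ?_⟩, h3⟩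
  · obtain ⟨-, ha, hb⟩ := h1 n hn ho (star n) (star_isTree (by omega))
    refine le_antisymm hb ?_
    by_contra hlt
    exact not_arrows_star (by omega) (arrows_mono _ (by omega) ha)
  · rintro N ⟨T, hT, rfl⟩
    exact (h1 n hn ho T hT).2.2

end Pool.Agent.Results.MP_06e9af_co.OddTreeRamsey
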